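import Pool.Agent.H261R3.LN.Stmts

/-! Project LN: assembled maps are Lipschitz (`TaskAsmN`). -/

set_option autoImplicit false

namespace Pool.Agent.H398R3.LN

open Pool.Agent.H261R3.LN
open Pool.Agent.H261R3.LH (Lip1)

variable {m : ℕ} {S : Type} [MetricSpace S] {C : ℝ}
  {G : ℤ → (Fin m → ℤ) → (Fin m → ℝ) → ℝ → S}

/-- the row number `j` -/
noncomputable def row (G : ℤ → (Fin m → ℤ) → (Fin m → ℝ) → ℝ → S) (j : ℤ) (v : Fin m → ℝ)
    (h : ℝ) : S := G j (fun i => ⌊v i⌋) (fun i => Int.fract (v i)) h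

theorem fract_cube (v : Fin m → ℝ) : InCube (fun i => Int.fract (v i)) :=
  fun i => ⟨Int.fract_nonneg _, (Int.fract_lt_one _).le⟩

theorem row_cell (hG : GoodN C G) (j : ℤ) (h : ℝ) (v : Fin m → ℝ) (i : Fin m) (k : ℤ) (a : ℝ)
    (hv : (k : ℝ) ≤ a) (hv' : a ≤ k + 1) :
    row G j (Function.update v i a) h =
      G j (Function.update (fun l => ⌊v l⌋) i k)
        (Function.update (fun l => Int.fract (v l)) i (a - k)) h := by
  have e1 : (fun l => ⌊Function.update v i a l⌋) = Function.update (fun l => ⌊v l⌋) i ⌊a⌋ := by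
    funext l
    by_cases hl : l = i
    · subst hl; simp
    · simp [Function.update_of_ne hl]
  have e2 : (fun l => Int.fract (Function.update v i a l)) =
      Function.update (fun l => Int.fract (v l)) i (Int.fract a) := by
    funext l
    by_cases hl : l = i
    · subst hl; simp
    · simp [Function.update_of_ne hl]
  unfold row
  rw [e1, e2]
  rcases hv'.eq_or_lt with e | e
  · have e' : a = ((k + 1 : ℤ) : ℝ) := by rw [e]; push_cast; ring
    rw [e', Int.floor_intCast, Int.fract_intCast]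
    have hs : ((k + 1 : ℤ) : ℝ) - k = 1 := by push_cast; ring
    rw [hs]
    have hc : InCube (Function.update (fun l => Int.fract (v l)) i (1 : ℝ)) := by
      intro l
      by_cases hl : l = i
      · subst hl; simp
      · rw [Function.update_of_ne hl]; exact fract_cube v l
    have := hG.lr j (Function.update (fun l => ⌊v l⌋) i k)
      (Function.update (fun l => Int.fract (v l)) i (1 : ℝ)) h i hc (by simp)
    rw [this]
    simp
  · have h1 : ⌊a⌋ = k := Int.floor_eq_iff.2 ⟨hv, e⟩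
    rw [Int.fract, h1]

theorem cell_lip (hC : 0 ≤ C) (hG : GoodN C G) (j : ℤ) (h : ℝ) (v : Fin m → ℝ) (i : Fin m) (k : ℤ)
    (a a' : ℝ) (h1 : (k : ℝ) ≤ a) (h2 : a ≤ a') (h3 : a' ≤ k + 1) :
    dist (row G j (Function.update v i a) h) (row G j (Function.update v i a') h) ≤
      C * (a' - a) := by
  rw [row_cell hG j h v i k a h1 (h2.trans h3), row_cell hG j h v i k a' (h1.trans h2) h3]
  refine (hG.ls j _ h _ _).trans (mul_le_mul_of_nonneg_left ?_ hC)
  rw [dist_pi_le_iff (by linarith)]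
  intro l
  by_cases hl : l = i
  · subst hl
    simp only [Function.update_self]
    rw [Real.dist_eq, abs_sub_comm, abs_of_nonneg (by linarith)]
    linarith
  · rw [Function.update_of_ne hl, Function.update_of_ne hl, dist_self]
    linarith

theorem row_lip_aux (hC : 0 ≤ C) (hG : GoodN C G) (j : ℤ) (h : ℝ) (v : Fin m → ℝ) (i : Fin m) :
    ∀ (n : ℕ) (a a' : ℝ), a ≤ a' → a' ≤ ⌊a⌋ + 1 + n →
      dist (row G j (Function.update v i a) h) (row G j (Function.update v i a') h) ≤ C * (a' - a)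
  | 0, a, a', h1, h2 => by
    refine cell_lip hC hG j h v i ⌊a⌋ a a' (Int.floor_le a) h1 ?_
    simpa using h2
  | n + 1, a, a', h1, h2 => by
    by_cases h3 : a' ≤ ⌊a⌋ + 1 + n
    · exact row_lip_aux hC hG j h v i n a a' h1 h3
    · push Not at h3
      have h4 : a ≤ ((⌊a⌋ + 1 + n : ℤ) : ℝ) := by
        push_cast
        have := Int.lt_floor_add_one a
        have hn : (0 : ℝ) ≤ n := Nat.cast_nonneg n
        linarith
      have h5 := row_lip_aux hC hG j h v i n a ((⌊a⌋ + 1 + n : ℤ) : ℝ) h4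
        (by push_cast; exact le_rfl)
      have h6 := cell_lip hC hG j h v i (⌊a⌋ + 1 + n) ((⌊a⌋ + 1 + n : ℤ) : ℝ) a' le_rfl
        (by push_cast; exact h3.le) (by push_cast at h2 ⊢; linarith)
      calc dist (row G j (Function.update v i a) h) (row G j (Function.update v i a') h)
          ≤ _ := dist_triangle _ _ _
        _ ≤ _ := add_le_add h5 h6
        _ = C * (a' - a) := by ring

theorem row_lip1 (hC : 0 ≤ C) (hG : GoodN C G) (j : ℤ) (h : ℝ) (v : Fin m → ℝ) (i : Fin m)
    (a a' : ℝ) :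
    dist (row G j (Function.update v i a) h) (row G j (Function.update v i a') h) ≤
      C * |a - a'| := by
  have key : ∀ a a' : ℝ, a ≤ a' →
      dist (row G j (Function.update v i a) h) (row G j (Function.update v i a') h) ≤
        C * (a' - a) := by
    intro a a' hv
    obtain ⟨n, hn⟩ := exists_nat_ge (a' - (⌊a⌋ + 1))
    exact row_lip_aux hC hG j h v i n a a' hv (by linarith)
  rcases le_total a a' with hv | hv
  · rw [abs_sub_comm, abs_of_nonneg (by linarith)]
    exact key a a' hv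
  · rw [abs_of_nonneg (by linarith), dist_comm]
    exact key a' a hv

theorem row_lip (hC : 0 ≤ C) (hG : GoodN C G) (j : ℤ) (h : ℝ) (v w : Fin m → ℝ) :
    dist (row G j v h) (row G j w h) ≤ C * ∑ i, |v i - w i| := by
  have key : ∀ s : Finset (Fin m),
      dist (row G j v h) (row G j (s.piecewise w v) h) ≤ C * ∑ i ∈ s, |v i - w i| := by
    intro s
    induction s using Finset.induction_on with
    | empty => simp
    | insert i s hi ih =>
      rw [Finset.sum_insert hi, Finset.piecewise_insert]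
      have h1 := row_lip1 hC hG j h (s.piecewise w v) i (v i) (w i)
      have h2 : Function.update (s.piecewise w v) i (v i) = s.piecewise w v := by
        have : (s.piecewise w v) i = v i := Finset.piecewise_eq_of_notMem _ _ _ hi
        rw [← this, Function.update_eq_self]
      rw [h2] at h1
      calc _ ≤ _ := dist_triangle _ (row G j (s.piecewise w v) h) _
        _ ≤ _ := add_le_add ih h1
        _ = _ := by ring
  have := key Finset.univ
  rwa [Finset.piecewise_univ] at this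

theorem row_up (hG : GoodN C G) (j : ℤ) (v : Fin m → ℝ) :
    row G j (fun i => 2 * v i) 1 = row G (j + 1) v 0 := by
  classical
  set b : Fin m → ℤ := fun i => if Int.fract (v i) < 1 / 2 then 0 else 1 with hb
  have hfl : ∀ i, ⌊2 * v i⌋ = 2 * ⌊v i⌋ + b i ∧ Int.fract (2 * v i) = 2 * Int.fract (v i) - b i := by
    intro i
    have h0 := Int.fract_nonneg (v i)
    have h1 := Int.fract_lt_one (v i)
    have h2 : v i = ⌊v i⌋ + Int.fract (v i) := (Int.floor_add_fract (v i)).symm
    have h3 : ⌊2 * v i⌋ = 2 * ⌊v i⌋ + b i := by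
      rw [Int.floor_eq_iff]
      simp only [hb]
      split_ifs with h
      · push_cast
        constructor <;> linarith
      · push Not at h
        push_cast
        constructor <;> linarith
    refine ⟨h3, ?_⟩
    rw [Int.fract, h3, Int.fract]
    push_cast
    ring
  have h4 := hG.tb j (fun i => ⌊v i⌋) b (by intro i; simp only [hb]; split_ifs <;> simp)
    (fun i => Int.fract (2 * v i)) (fract_cube _)
  have e1 : (fun i => ⌊2 * v i⌋) = fun i => 2 * ⌊v i⌋ + b i := by
    funext i; exact (hfl i).1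
  have e2 : (fun i => ((b i : ℝ) + Int.fract (2 * v i)) / 2) = fun i => Int.fract (v i) := by
    funext i
    rw [(hfl i).2]
    ring
  unfold row
  rw [e1, h4, e2]

/-- the value at the point `(x, y)` -/
noncomputable def av (G : ℤ → (Fin m → ℤ) → (Fin m → ℝ) → ℝ → S) (x : Fin m → ℝ) (y : ℝ) : S :=
  row G (Int.log 2 y) (fun i => x i / 2 ^ (Int.log 2 y)) (y / 2 ^ (Int.log 2 y) - 1)

theorem asm_eq (z : Hyp m) : asmN G z = av G (fun i => z.x i) z.y := rfl

theorem log_le (y : ℝ) (hy : 0 < y) : (2 : ℝ) ^ (Int.log 2 y) ≤ y := by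
  have := Int.zpow_log_le_self (b := 2) (r := y) (by norm_num) hy
  exact_mod_cast this

theorem lt_log (y : ℝ) : y < 2 * (2 : ℝ) ^ (Int.log 2 y) := by
  have := Int.lt_zpow_succ_log_self (b := 2) (by norm_num) y
  rw [Nat.cast_ofNat, zpow_add_one₀ (by norm_num)] at this
  linarith

theorem inv_le (y a : ℝ) (hy : 0 < y) (ha : 0 < a) (h : y ≤ 2 * a) (t : ℝ) (ht : 0 ≤ t) :
    t / a ≤ 2 * (t / y) := by
  rw [div_le_iff₀ ha, mul_assoc, div_mul_eq_mul_div, mul_div_assoc', le_div_iff₀ hy]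
  nlinarith

theorem vert (hC : 0 ≤ C) (hG : GoodN C G) (x : Fin m → ℝ) (y y' : ℝ) (hy : 0 < y) (h1 : y ≤ y')
    (h2 : y' ≤ 2 * y) :
    dist (av G x y) (av G x y') ≤ C * (2 * ((y' - y) / y)) := by
  have hy' : 0 < y' := hy.trans_le h1
  have ha : (0 : ℝ) < 2 ^ (Int.log 2 y) := by positivity
  have ha1 := log_le y hy
  have ha2 := lt_log y
  have hb1 := log_le y' hy'
  have hb2 := lt_log y'
  have hle : Int.log 2 y ≤ Int.log 2 y' := Int.log_mono_right hy h1
  have hlt : Int.log 2 y' < Int.log 2 y + 1 + 1 := by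
    have h3 : (2 : ℝ) ^ (Int.log 2 y') < 2 ^ (Int.log 2 y + 1 + 1) := by
      rw [zpow_add_one₀ (by norm_num), zpow_add_one₀ (by norm_num)]
      linarith
    exact (zpow_lt_zpow_iff_right₀ (by norm_num)).1 h3
  have hfin : C * ((y' - y) / 2 ^ (Int.log 2 y)) ≤ C * (2 * ((y' - y) / y)) :=
    mul_le_mul_of_nonneg_left (inv_le y _ hy ha ha2.le _ (by linarith)) hC
  refine le_trans ?_ hfin
  rcases (by omega : Int.log 2 y' = Int.log 2 y ∨ Int.log 2 y' = Int.log 2 y + 1) with e | e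
  · unfold av
    rw [e]
    have := hG.lh (Int.log 2 y) (fun i => ⌊x i / 2 ^ (Int.log 2 y)⌋)
      (fun i => Int.fract (x i / 2 ^ (Int.log 2 y)))
      (y / 2 ^ (Int.log 2 y) - 1) (y' / 2 ^ (Int.log 2 y) - 1)
    refine this.trans (le_of_eq ?_)
    have h4 : (y' - y) / 2 ^ (Int.log 2 y) = (y' / 2 ^ (Int.log 2 y) - 1) - (y / 2 ^ (Int.log 2 y) - 1) := by
      ring
    have h5 : 0 ≤ (y' - y) / 2 ^ (Int.log 2 y) := div_nonneg (by linarith) ha.le
    rw [h4] at h5 ⊢
    rw [abs_sub_comm, abs_of_nonneg h5]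
  · unfold av
    rw [e]
    rw [e] at hb1 hb2
    rw [zpow_add_one₀ (by norm_num)] at hb1 hb2 ⊢
    set a : ℝ := 2 ^ (Int.log 2 y) with hadef
    have hup := row_up hG (Int.log 2 y) (fun i => x i / (a * 2))
    have hx : (fun i => 2 * (x i / (a * 2))) = fun i => x i / a := by
      funext i
      field_simp
    rw [hx] at hup
    have e1 : dist (row G (Int.log 2 y) (fun i => x i / a) (y / a - 1))
        (row G (Int.log 2 y) (fun i => x i / a) 1) ≤
        C * |(y / a - 1) - 1| := hG.lh _ _ _ _ _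
    have e2 : dist (row G (Int.log 2 y + 1) (fun i => x i / (a * 2)) 0)
        (row G (Int.log 2 y + 1) (fun i => x i / (a * 2)) (y' / (a * 2) - 1)) ≤
        C * |0 - (y' / (a * 2) - 1)| := hG.lh _ _ _ _ _
    have e3 : |(y / a - 1) - 1| = 2 - y / a := by
      have : y / a ≤ 2 := by rw [div_le_iff₀ ha]; exact ha2.le
      rw [abs_of_nonpos (by linarith)]
      ring
    have e4 : |0 - (y' / (a * 2) - 1)| = y' / (a * 2) - 1 := by
      have : 1 ≤ y' / (a * 2) := by rw [le_div_iff₀ (by positivity)]; linarith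
      rw [abs_of_nonpos (by linarith)]
      ring
    rw [e3] at e1
    rw [e4, ← hup] at e2
    calc _ ≤ _ := dist_triangle _ _ _
      _ ≤ _ := add_le_add e1 e2
      _ = C * ((2 - y / a) + (y' / (a * 2) - 1)) := by ring
      _ ≤ C * ((y' - y) / a) := by
        apply mul_le_mul_of_nonneg_left _ hC
        have h6 : y' / (a * 2) = (y' / a) / 2 := by field_simp
        have h7 : 2 ≤ y' / a := by rw [le_div_iff₀ ha]; linarith
        rw [h6, sub_div]
        linarith

theorem horiz (hC : 0 ≤ C) (hG : GoodN C G) (x x' : Fin m → ℝ) (y : ℝ) (hy : 0 < y) :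
    dist (av G x y) (av G x' y) ≤ C * (2 * ((∑ i, |x i - x' i|) / y)) := by
  have ha : (0 : ℝ) < 2 ^ (Int.log 2 y) := by positivity
  have ha2 := lt_log y
  have h1 := row_lip hC hG (Int.log 2 y) (y / 2 ^ (Int.log 2 y) - 1)
    (fun i => x i / 2 ^ (Int.log 2 y)) (fun i => x' i / 2 ^ (Int.log 2 y))
  refine h1.trans ?_
  have e : ∑ i, |x i / 2 ^ (Int.log 2 y) - x' i / 2 ^ (Int.log 2 y)| =
      (∑ i, |x i - x' i|) / 2 ^ (Int.log 2 y) := by
    rw [Finset.sum_div]
    refine Finset.sum_congr rfl fun i _ => ?_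
    rw [← sub_div, abs_div, abs_of_pos ha]
  simp only [e]
  exact mul_le_mul_of_nonneg_left
    (inv_le y _ hy ha ha2.le _ (Finset.sum_nonneg fun i _ => abs_nonneg _)) hC

theorem cosh_sub_one_le (d : ℝ) (h0 : 0 ≤ d) (h1 : d ≤ 1 / 4) : Real.cosh d - 1 ≤ d ^ 2 := by
  have h2 := Real.cosh_le_exp_half_sq d
  have h3 : d ^ 2 / 2 < 1 := by nlinarith
  have h4 := Real.exp_bound_div_one_sub_of_interval (x := d ^ 2 / 2) (by positivity) h3
  have h5 : 1 / (1 - d ^ 2 / 2) ≤ 1 + d ^ 2 := by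
    rw [div_le_iff₀ (by linarith)]
    have ht0 : 0 ≤ d ^ 2 := sq_nonneg d
    have ht1 : d ^ 2 ≤ 1 / 16 := by nlinarith
    have ht2 : 0 ≤ d ^ 2 * (1 - d ^ 2) := mul_nonneg ht0 (by linarith)
    linarith
  linarith

theorem hdist_symm (z w : Hyp m) : hdist z w = hdist w z := by
  unfold hdist
  rw [norm_sub_rev z.x w.x, ← neg_sub w.y z.y, neg_sq]
  congr 2
  ring

theorem arg_ge (z w : Hyp m) :
    1 ≤ 1 + (‖z.x - w.x‖ ^ 2 + (z.y - w.y) ^ 2) / (2 * z.y * w.y) := by
  have h1 := z.pos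
  have h2 := w.pos
  have : 0 ≤ (‖z.x - w.x‖ ^ 2 + (z.y - w.y) ^ 2) / (2 * z.y * w.y) := by positivity
  linarith

theorem main (hC : 0 ≤ C) (hG : GoodN C G) (z w : Hyp m) (hzw : z.y ≤ w.y)
    (hd : hdist z w ≤ 1 / 4) :
    dist (asmN G z) (asmN G w) ≤ 4 * (m + 1) * C * hdist z w := by
  have hz := z.pos
  have hw := w.pos
  have hd0 : 0 ≤ hdist z w := Real.arcosh_nonneg (arg_ge z w)
  have hc := cosh_sub_one_le _ hd0 hd
  have hcosh : Real.cosh (hdist z w) =
      1 + (‖z.x - w.x‖ ^ 2 + (z.y - w.y) ^ 2) / (2 * z.y * w.y) :=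
    Real.cosh_arcosh (arg_ge z w)
  rw [hcosh] at hc
  set d := hdist z w with hdd
  have h1 : ‖z.x - w.x‖ ^ 2 + (z.y - w.y) ^ 2 ≤ 2 * z.y * w.y * d ^ 2 := by
    have : (‖z.x - w.x‖ ^ 2 + (z.y - w.y) ^ 2) / (2 * z.y * w.y) ≤ d ^ 2 := by linarith
    rw [div_le_iff₀ (by positivity)] at this
    linarith
  have hn := norm_nonneg (z.x - w.x)
  have hd2 : d ^ 2 ≤ 1 / 16 := by nlinarith
  have hy2 : w.y ≤ 2 * z.y := by
    by_contra hcon
    push Not at hcon
    have h3 : (z.y - w.y) ^ 2 ≤ 2 * z.y * w.y * (1 / 16) := by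
      have : 2 * z.y * w.y * d ^ 2 ≤ 2 * z.y * w.y * (1 / 16) :=
        mul_le_mul_of_nonneg_left hd2 (by positivity)
      nlinarith [sq_nonneg ‖z.x - w.x‖]
    nlinarith [mul_pos hz hw]
  have h4 : ‖z.x - w.x‖ ^ 2 + (z.y - w.y) ^ 2 ≤ (2 * z.y * d) ^ 2 := by
    have : 2 * z.y * w.y * d ^ 2 ≤ 2 * z.y * (2 * z.y) * d ^ 2 := by gcongr
    nlinarith
  have hzd : 0 ≤ 2 * z.y * d := by positivity
  have h5 : ‖z.x - w.x‖ ≤ 2 * z.y * d := by
    apply le_of_sq_le_sq _ hzd
    nlinarith [sq_nonneg (z.y - w.y)]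
  have h6 : w.y - z.y ≤ 2 * z.y * d := by
    apply le_of_sq_le_sq _ hzd
    nlinarith [sq_nonneg ‖z.x - w.x‖]
  have e1 := vert hC hG (fun i => z.x i) z.y w.y hz hzw hy2
  have e2 := horiz hC hG (fun i => z.x i) (fun i => w.x i) w.y hw
  have e3 : (w.y - z.y) / z.y ≤ 2 * d := by
    rw [div_le_iff₀ hz]; linarith
  have hsum : ∑ i, |z.x i - w.x i| ≤ m * (2 * z.y * d) := by
    calc ∑ i, |z.x i - w.x i| ≤ ∑ _i : Fin m, 2 * z.y * d := by
          refine Finset.sum_le_sum fun i _ => ?_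
          have := PiLp.norm_apply_le (z.x - w.x) i
          rw [PiLp.sub_apply, Real.norm_eq_abs] at this
          exact this.trans h5
      _ = m * (2 * z.y * d) := by simp
  have e4 : (∑ i, |z.x i - w.x i|) / w.y ≤ m * (2 * d) := by
    rw [div_le_iff₀ hw]
    refine hsum.trans ?_
    have : z.y * d ≤ w.y * d := mul_le_mul_of_nonneg_right hzw hd0
    have hm : (0 : ℝ) ≤ m := Nat.cast_nonneg m
    nlinarith
  rw [asm_eq, asm_eq]
  calc _ ≤ _ := dist_triangle _ (av G (fun i => z.x i) w.y) _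
    _ ≤ _ := add_le_add e1 e2
    _ ≤ C * (2 * (2 * d)) + C * (2 * (m * (2 * d))) := by
      apply add_le_add <;> apply mul_le_mul_of_nonneg_left _ hC <;> linarith
    _ = 4 * (m + 1) * C * d := by ring

theorem taskAsmN : TaskAsmN := by
  intro m S _ C Δ hC hΔ
  refine ⟨4 * (m + 1) * C + 4 * |Δ|, ?_⟩
  intro G hG z w
  have hd : 0 ≤ hdist z w := Real.arcosh_nonneg (arg_ge z w)
  by_cases h : hdist z w ≤ 1 / 4
  · have h1 : dist (asmN G z) (asmN G w) ≤ 4 * (m + 1) * C * hdist z w := by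
      rcases le_total z.y w.y with h2 | h2
      · exact main hC hG z w h2 h
      · rw [dist_comm, hdist_symm z w]
        rw [hdist_symm z w] at h
        exact main hC hG w z h2 h
    have h2 : 0 ≤ 4 * |Δ| * hdist z w := by positivity
    linarith
  · push Not at h
    have h1 := hΔ (asmN G z) (asmN G w)
    have h2 : Δ ≤ |Δ| := le_abs_self Δ
    have h3 : |Δ| * 1 ≤ |Δ| * (4 * hdist z w) :=
      mul_le_mul_of_nonneg_left (by linarith) (abs_nonneg _)
    have h4 : 0 ≤ 4 * (m + 1) * C * hdist z w := by positivity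
    linarith

end Pool.Agent.H398R3.LN
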